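import Mathlib

/-!
# First-Fit on chordal graphs: a lower bound of order `ω · log n`, uniform in `ω`

The graph is a clique blow-up of a binomial tree: the blocks are indexed by natural numbers, the
parent of the block `x ≠ 0` is obtained by clearing the top binary digit of `x`, two vertices are
adjacent when they lie in the same block or in a block and its parent block.
-/

set_option autoImplicit false

namespace Pool.Agent.Results.MP_4aa424_co.FirstFitChordal

/-- A graph is chordal if every cycle of length `n ≥ 4`, given by its (distinct) vertices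
`f 0, f 1, …, f (n-1)` in cyclic order (indices mod `n`), has a chord: an edge joining two vertices
which are not consecutive on the cycle. -/
def IsChordal {V : Type*} (G : SimpleGraph V) : Prop :=
  ∀ n : ℕ, 4 ≤ n → ∀ f : ZMod n → V, Function.Injective f →
    (∀ i, G.Adj (f i) (f (i + 1))) →
      ∃ i j : ZMod n, i ≠ j ∧ j ≠ i + 1 ∧ i ≠ j + 1 ∧ G.Adj (f i) (f j)

/-- The colour that First-Fit gives to the `s`-th vertex `σ s` of the ordering `σ 0, σ 1, …` of
the vertices: the least positive integer which is not the colour of an earlier neighbour. -/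
noncomputable def firstFit {n : ℕ} (G : SimpleGraph (Fin n)) (σ : Equiv.Perm (Fin n))
    (s : Fin n) : ℕ :=
  sInf {a : ℕ | 0 < a ∧ ∀ (r : Fin n) (_ : r < s), G.Adj (σ r) (σ s) → firstFit G σ r ≠ a}
termination_by s

/-- The First-Fit chromatic number: the largest number of colours First-Fit uses on `G`, over all
orderings of the vertices. -/
noncomputable def chiFF {n : ℕ} (G : SimpleGraph (Fin n)) : ℕ :=
  Finset.univ.sup fun σ : Equiv.Perm (Fin n) => (Finset.univ.image (firstFit G σ)).card

/-! ### A criterion for `t ≤ χ_FF` -/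

theorem le_chiFF {n : ℕ} (G : SimpleGraph (Fin n)) (t : ℕ) (c : Fin n → ℕ)
    (hpos : ∀ v, c v ≤ t → 1 ≤ c v)
    (hproper : ∀ u v, c u ≤ t → c v ≤ t → G.Adj u v → c u ≠ c v)
    (hwall : ∀ v, c v ≤ t → ∀ i, 1 ≤ i → i < c v → ∃ u, G.Adj u v ∧ c u = i)
    (hsurj : ∀ i, 1 ≤ i → i ≤ t → ∃ v, c v = i) :
    t ≤ chiFF G := by
  classical
  set σ : Equiv.Perm (Fin n) := Tuple.sort c with hσ
  have hmono : Monotone (c ∘ σ) := Tuple.monotone_sort c
  have key : ∀ s : Fin n, c (σ s) ≤ t → firstFit G σ s = c (σ s) := by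
    intro s
    induction s using WellFoundedLT.induction with
    | ind s ih =>
      intro hs
      rw [firstFit]
      apply le_antisymm
      · apply Nat.sInf_le
        refine ⟨hpos _ hs, ?_⟩
        intro r hr hadj
        have hle : c (σ r) ≤ c (σ s) := hmono hr.le
        rw [ih r hr (hle.trans hs)]
        exact hproper _ _ (hle.trans hs) hs hadj
      · apply le_csInf
        · refine ⟨c (σ s), hpos _ hs, ?_⟩
          intro r hr hadj
          have hle : c (σ r) ≤ c (σ s) := hmono hr.le
          rw [ih r hr (hle.trans hs)]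
          exact hproper _ _ (hle.trans hs) hs hadj
        · rintro a ⟨ha, hforall⟩
          by_contra hlt
          push Not at hlt
          obtain ⟨u, hu, hcu⟩ := hwall _ hs a ha hlt
          obtain ⟨r, rfl⟩ := σ.surjective u
          have hrs : r < s := by
            by_contra hns
            push Not at hns
            have := hmono hns
            simp only [Function.comp] at this
            omega
          apply hforall r hrs hu
          rw [ih r hrs (by omega), hcu]
  have h1 : (Finset.univ.image (firstFit G σ)).card ≤ chiFF G := by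
    unfold chiFF
    exact Finset.le_sup (f := fun σ : Equiv.Perm (Fin n) =>
      (Finset.univ.image (firstFit G σ)).card) (Finset.mem_univ σ)
  refine le_trans ?_ h1
  have h2 : Finset.Icc 1 t ⊆ Finset.univ.image (firstFit G σ) := by
    intro i hi
    rw [Finset.mem_Icc] at hi
    obtain ⟨v, hv⟩ := hsurj i hi.1 hi.2
    obtain ⟨s, rfl⟩ := σ.surjective v
    rw [Finset.mem_image]
    exact ⟨s, Finset.mem_univ _, by rw [key s (by omega), hv]⟩
  have h3 := Finset.card_le_card h2
  simpa using h3

/-! ### A criterion for chordality -/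

theorem isChordal_of_rank {V : Type*} (G : SimpleGraph V) (x : V → ℕ)
    (h : ∀ u v w, x u ≤ x v → x w ≤ x v → G.Adj v u → G.Adj v w → u ≠ w → G.Adj u w) :
    IsChordal G := by
  intro n hn f hf hadj
  have : NeZero n := ⟨by omega⟩
  obtain ⟨i, -, hi⟩ := Finset.exists_max_image (Finset.univ : Finset (ZMod n))
    (fun i => x (f i)) ⟨0, Finset.mem_univ _⟩
  have h3 : (3 : ZMod n) ≠ 0 := by
    intro h0
    have : ((3 : ℕ) : ZMod n) = 0 := by exact_mod_cast h0
    rw [ZMod.natCast_eq_zero_iff] at this
    have := Nat.le_of_dvd (by norm_num) this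
    omega
  have h2 : (2 : ZMod n) ≠ 0 := by
    intro h0
    have : ((2 : ℕ) : ZMod n) = 0 := by exact_mod_cast h0
    rw [ZMod.natCast_eq_zero_iff] at this
    have := Nat.le_of_dvd (by norm_num) this
    omega
  have h1 : (1 : ZMod n) ≠ 0 := by
    intro h0
    have : ((1 : ℕ) : ZMod n) = 0 := by exact_mod_cast h0
    rw [ZMod.natCast_eq_zero_iff] at this
    have := Nat.le_of_dvd (by norm_num) this
    omega
  have hne : i - 1 ≠ i + 1 := by
    intro h0
    apply h2
    linear_combination -h0
  refine ⟨i - 1, i + 1, hne, ?_, ?_, ?_⟩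
  · intro h0
    apply h1
    linear_combination h0
  · intro h0
    apply h3
    linear_combination -h0
  · apply h (f (i - 1)) (f i) (f (i + 1))
    · exact hi _ (Finset.mem_univ _)
    · exact hi _ (Finset.mem_univ _)
    · have := hadj (i - 1)
      rw [sub_add_cancel] at this
      exact this.symm
    · exact hadj i
    · intro h0
      exact hne (hf h0)

/-! ### The graph -/

/-- The parent of the block `y`: clear the top binary digit. -/
def par (y : ℕ) : ℕ := y - 2 ^ (y.size - 1)

/-- The block of the vertex `v`. -/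
def blk (k v : ℕ) : ℕ := (v - k % 2) / (k / 2)

theorem par_lt {y : ℕ} (hy : y ≠ 0) : par y < y := by
  unfold par
  have : 0 < 2 ^ (y.size - 1) := by positivity
  omega

theorem pow_size_le {y : ℕ} (hy : y ≠ 0) : 2 ^ (y.size - 1) ≤ y := by
  have hs : 0 < y.size := Nat.size_pos.2 (Nat.pos_of_ne_zero hy)
  exact Nat.lt_size.1 (by omega)

theorem size_par_lt {y : ℕ} (hy : y ≠ 0) : (par y).size < y.size := by
  have hs : 0 < y.size := Nat.size_pos.2 (Nat.pos_of_ne_zero hy)
  have h1 : y < 2 ^ y.size := Nat.lt_size_self y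
  have h2 : 2 ^ y.size = 2 * 2 ^ (y.size - 1) := by
    rw [← pow_succ']
    congr 1
    omega
  have h3 := pow_size_le hy
  have h4 : (par y).size ≤ y.size - 1 := by
    rw [Nat.size_le]
    unfold par
    omega
  omega

/-- The child of `x` obtained by adding the binary digit `2 ^ i` above all digits of `x`. -/
theorem child {x i : ℕ} (h : x.size ≤ i) :
    (x + 2 ^ i).size = i + 1 ∧ par (x + 2 ^ i) = x := by
  have hx : x < 2 ^ i := Nat.size_le.1 h
  have h1 : (x + 2 ^ i).size = i + 1 := by
    apply le_antisymm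
    · rw [Nat.size_le, pow_succ]
      omega
    · have : i < (x + 2 ^ i).size := by
        rw [Nat.lt_size]
        omega
      omega
  refine ⟨h1, ?_⟩
  unfold par
  rw [h1]
  simp

/-- The graph: a clique blow-up of a tree. -/
def gr (k n : ℕ) : SimpleGraph (Fin n) where
  Adj u v := u ≠ v ∧ (blk k u = blk k v ∨ (blk k v ≠ 0 ∧ blk k u = par (blk k v)) ∨
    (blk k u ≠ 0 ∧ blk k v = par (blk k u)))
  symm := ⟨by
    rintro u v ⟨h1, h2⟩
    refine ⟨h1.symm, ?_⟩
    rcases h2 with h2 | h2 | h2
    · exact Or.inl h2.symm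
    · exact Or.inr (Or.inr h2)
    · exact Or.inr (Or.inl h2)⟩
  loopless := ⟨by
    rintro u ⟨h1, -⟩
    exact h1 rfl⟩

/-- A neighbour in a block with at most the same index lies in the same block or in the parent. -/
theorem gr_adj_le {k n : ℕ} {u v : Fin n} (hle : blk k u ≤ blk k v) (h : (gr k n).Adj v u) :
    blk k u = blk k v ∨ (blk k v ≠ 0 ∧ blk k u = par (blk k v)) := by
  obtain ⟨-, h | h | h⟩ := h
  · exact Or.inl h.symm
  · have := par_lt h.1
    omega
  · exact Or.inr h

theorem gr_chordal (k n : ℕ) : IsChordal (gr k n) := by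
  apply isChordal_of_rank (gr k n) (fun v => blk k v)
  intro u v w hu hw hvu hvw hne
  have h1 := gr_adj_le hu hvu
  have h2 := gr_adj_le hw hvw
  refine ⟨hne, ?_⟩
  rcases h1 with h1 | h1 <;> rcases h2 with h2 | h2
  · exact Or.inl (h1.trans h2.symm)
  · refine Or.inr (Or.inr ⟨by rw [h1]; exact h2.1, by rw [h1]; exact h2.2⟩)
  · refine Or.inr (Or.inl ⟨by rw [h2]; exact h1.1, by rw [h2]; exact h1.2⟩)
  · exact Or.inl (h1.2.trans h2.2.symm)

/-! ### The clique number -/

theorem blk_eq {k v b : ℕ} (hk : 2 ≤ k) (h : blk k v = b) :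
    b * (k / 2) ≤ v - k % 2 ∧ v - k % 2 < (b + 1) * (k / 2) := by
  have hm : 0 < k / 2 := by omega
  unfold blk at h
  subst h
  refine ⟨Nat.div_mul_le_self _ _, ?_⟩
  have := Nat.lt_mul_div_succ (v - k % 2) hm
  rw [mul_comm]
  exact this

theorem card_blk_le {k n : ℕ} (hk : 2 ≤ k) (b : ℕ) :
    (Finset.univ.filter fun u : Fin n => blk k u = b).card ≤ k / 2 + k % 2 := by
  have hinj : Function.Injective (fun u : Fin n => (u : ℕ)) := Fin.val_injective
  have hsub : (Finset.univ.filter fun u : Fin n => blk k u = b).image (fun u : Fin n => (u : ℕ)) ⊆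
      Finset.Ico (b * (k / 2)) (b * (k / 2) + (k / 2 + k % 2)) := by
    intro w hw
    rw [Finset.mem_image] at hw
    obtain ⟨u, hu, rfl⟩ := hw
    rw [Finset.mem_filter] at hu
    obtain ⟨h1, h2⟩ := blk_eq hk hu.2
    rw [add_mul, one_mul] at h2
    simp only [Finset.mem_Ico]
    constructor <;> omega
  have h1 := Finset.card_le_card hsub
  rw [Finset.card_image_of_injective _ hinj] at h1
  simpa using h1

theorem card_blk_le' {k n : ℕ} (hk : 2 ≤ k) {b : ℕ} (hb : b ≠ 0) :
    (Finset.univ.filter fun u : Fin n => blk k u = b).card ≤ k / 2 := by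
  have hinj : Function.Injective (fun u : Fin n => (u : ℕ)) := Fin.val_injective
  have hsub : (Finset.univ.filter fun u : Fin n => blk k u = b).image (fun u : Fin n => (u : ℕ)) ⊆
      Finset.Ico (b * (k / 2) + k % 2) (b * (k / 2) + k % 2 + k / 2) := by
    intro w hw
    rw [Finset.mem_image] at hw
    obtain ⟨u, hu, rfl⟩ := hw
    rw [Finset.mem_filter] at hu
    obtain ⟨h1, h2⟩ := blk_eq hk hu.2
    rw [add_mul, one_mul] at h2
    have h3 : 0 < b * (k / 2) := Nat.mul_pos (Nat.pos_of_ne_zero hb) (by omega)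
    simp only [Finset.mem_Ico]
    constructor <;> omega
  have h1 := Finset.card_le_card hsub
  rw [Finset.card_image_of_injective _ hinj] at h1
  simpa using h1

theorem gr_cliqueNum {k n : ℕ} (hk : 2 ≤ k) (hn : k ≤ n) : (gr k n).cliqueNum = k := by
  classical
  apply le_antisymm
  · obtain ⟨s, hs⟩ := (gr k n).exists_isNClique_cliqueNum
    rw [← hs.card_eq]
    have hcl := hs.isClique
    by_cases hse : s.Nonempty
    · obtain ⟨v, hv, hmax⟩ := Finset.exists_max_image s (fun u => blk k u) hse
      have hmem : ∀ u ∈ s, blk k u = blk k v ∨ (blk k v ≠ 0 ∧ blk k u = par (blk k v)) := by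
        intro u hu
        by_cases huv : u = v
        · left; rw [huv]
        · exact gr_adj_le (hmax u hu) (hcl hv hu (Ne.symm huv))
      by_cases h0 : blk k v = 0
      · have hsub : s ⊆ Finset.univ.filter fun u : Fin n => blk k u = 0 := by
          intro u hu
          rw [Finset.mem_filter]
          refine ⟨Finset.mem_univ _, ?_⟩
          rcases hmem u hu with h | h
          · rw [h, h0]
          · exact absurd h0 h.1
        have h1 := Finset.card_le_card hsub
        have h2 := card_blk_le (n := n) hk 0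
        omega
      · have hsub : s ⊆ (Finset.univ.filter fun u : Fin n => blk k u = blk k v) ∪
            (Finset.univ.filter fun u : Fin n => blk k u = par (blk k v)) := by
          intro u hu
          rw [Finset.mem_union, Finset.mem_filter, Finset.mem_filter]
          rcases hmem u hu with h | h
          · exact Or.inl ⟨Finset.mem_univ _, h⟩
          · exact Or.inr ⟨Finset.mem_univ _, h.2⟩
        have h1 := Finset.card_le_card hsub
        have h2 := Finset.card_union_le
          (Finset.univ.filter fun u : Fin n => blk k u = blk k v)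
          (Finset.univ.filter fun u : Fin n => blk k u = par (blk k v))
        have h3 := card_blk_le' (n := n) hk h0
        have h4 := card_blk_le (n := n) hk (par (blk k v))
        omega
    · rw [Finset.not_nonempty_iff_eq_empty] at hse
      subst hse
      simp
  · set s : Finset (Fin n) := Finset.univ.map (Fin.castLEEmb hn) with hs
    have hcard : s.card = k := by
      rw [hs, Finset.card_map, Finset.card_univ, Fintype.card_fin]
    have hclique : (gr k n).IsClique (s : Set (Fin n)) := by
      intro u hu v hv huv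
      have hb : ∀ w ∈ s, blk k w = 0 ∨ blk k w = 1 := by
        intro w hw
        rw [hs, Finset.mem_map] at hw
        obtain ⟨a, -, ha⟩ := hw
        have hw : (w : ℕ) < k := by
          rw [← ha]
          exact a.2
        obtain ⟨h1, -⟩ := blk_eq hk (rfl : blk k w = blk k w)
        have h2 : blk k w < 2 := by
          by_contra hcon
          push Not at hcon
          have : 2 * (k / 2) ≤ blk k w * (k / 2) := Nat.mul_le_mul_right _ hcon
          omega
        omega
      have hp : par 1 = 0 := by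
        unfold par
        simp
      refine ⟨huv, ?_⟩
      rcases hb u hu with h1 | h1 <;> rcases hb v hv with h2 | h2
      · exact Or.inl (h1.trans h2.symm)
      · exact Or.inr (Or.inl ⟨by rw [h2]; exact one_ne_zero, by rw [h1, h2, hp]⟩)
      · exact Or.inr (Or.inr ⟨by rw [h1]; exact one_ne_zero, by rw [h1, h2, hp]⟩)
      · exact Or.inl (h1.trans h2.symm)
    have := hclique.card_le_cliqueNum
    rw [hcard] at this
    exact this

/-! ### The First-Fit colouring with many colours -/

theorem gr_chiFF {k n J : ℕ} (hk : 2 ≤ k) (hJ : k % 2 + (k / 2) * 2 ^ J ≤ n) :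
    (k / 2) * (J + 1) ≤ chiFF (gr k n) := by
  classical
  obtain ⟨m, hm⟩ : ∃ m, m = k / 2 := ⟨_, rfl⟩
  have hm0 : 0 < m := by omega
  obtain ⟨t, ht⟩ : ∃ t, t = m * (J + 1) := ⟨_, rfl⟩
  set W : Fin n → Prop := fun v => k % 2 ≤ (v : ℕ) ∧ blk k v < 2 ^ J with hW
  set c : Fin n → ℕ := fun v => if W v then
    m * (J - (blk k v).size) + ((v : ℕ) - k % 2) % m + 1 else t + 1 with hc
  have hcW : ∀ v, W v → c v = m * (J - (blk k v).size) + ((v : ℕ) - k % 2) % m + 1 := by
    intro v hv
    simp only [hc, if_pos hv]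
  have hcn : ∀ v, c v ≤ t → W v := by
    intro v hv
    by_contra hcon
    simp only [hc, if_neg hcon] at hv
    omega
  -- the vertex in slot `b` of the block `y`
  have hvert : ∀ y b, y < 2 ^ J → b < m → ∃ u : Fin n, W u ∧ blk k u = y ∧
      ((u : ℕ) - k % 2) % m = b ∧ c u = m * (J - y.size) + b + 1 := by
    intro y b hy hb
    have hlt : k % 2 + (m * y + b) < n := by
      have h1 : m * (y + 1) ≤ m * 2 ^ J := Nat.mul_le_mul_left _ hy
      rw [mul_add, mul_one] at h1
      rw [← hm] at hJ
      omega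
    refine ⟨⟨k % 2 + (m * y + b), hlt⟩, ?_⟩
    have hb1 : blk k (k % 2 + (m * y + b)) = y := by
      unfold blk
      rw [← hm, Nat.add_sub_cancel_left, Nat.mul_add_div hm0, Nat.div_eq_of_lt hb, add_zero]
    have hb2 : ((k % 2 + (m * y + b)) - k % 2) % m = b := by
      rw [Nat.add_sub_cancel_left, Nat.mul_add_mod, Nat.mod_eq_of_lt hb]
    have hWu : W ⟨k % 2 + (m * y + b), hlt⟩ := by
      refine ⟨Nat.le_add_right _ _, ?_⟩
      simp only [hb1]
      exact hy
    refine ⟨hWu, hb1, hb2, ?_⟩
    rw [hcW _ hWu]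
    simp only [hb1, hb2]
  have hwall : ∀ v, c v ≤ t → ∀ i, 1 ≤ i → i < c v → ∃ u, (gr k n).Adj u v ∧ c u = i := by
    intro v hv i hi1 hi2
    have hWv := hcn v hv
    have hcv := hcW v hWv
    obtain ⟨x, hx⟩ : ∃ x, x = blk k v := ⟨_, rfl⟩
    obtain ⟨a, ha⟩ : ∃ a, a = ((v : ℕ) - k % 2) % m := ⟨_, rfl⟩
    rw [← hx, ← ha] at hcv
    have hxJ : x < 2 ^ J := by rw [hx]; exact hWv.2
    have hsJ : x.size ≤ J := Nat.size_le.2 hxJ
    have ham : a < m := by rw [ha]; exact Nat.mod_lt _ hm0
    obtain ⟨q, hq⟩ : ∃ q, q = (i - 1) / m := ⟨_, rfl⟩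
    obtain ⟨b, hb⟩ : ∃ b, b = (i - 1) % m := ⟨_, rfl⟩
    have hbm : b < m := by rw [hb]; exact Nat.mod_lt _ hm0
    have hiq : i - 1 = m * q + b := by
      rw [hq, hb]
      exact (Nat.div_add_mod _ _).symm
    have hqle : q ≤ J - x.size := by
      by_contra hcon
      push Not at hcon
      have : m * (J - x.size + 1) ≤ m * q := Nat.mul_le_mul_left _ hcon
      rw [mul_add, mul_one] at this
      omega
    rcases Nat.lt_or_ge q (J - x.size) with hlt | hge
    · -- use a child of the block `x`
      obtain ⟨hs1, hs2⟩ := child (x := x) (i := J - q - 1) (by omega)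
      have hyJ : x + 2 ^ (J - q - 1) < 2 ^ J := by
        rw [← Nat.size_le, hs1]
        omega
      obtain ⟨u, hWu, hbu, -, hcu⟩ := hvert _ b hyJ hbm
      refine ⟨u, ⟨?_, ?_⟩, ?_⟩
      · intro huv
        rw [huv, ← hx] at hbu
        have : 0 < 2 ^ (J - q - 1) := by positivity
        omega
      · right; right
        refine ⟨?_, ?_⟩
        · rw [hbu]
          have : 0 < 2 ^ (J - q - 1) := by positivity
          omega
        · rw [hbu, hs2, hx]
      · rw [hcu, hs1]
        have : J - (J - q - 1 + 1) = q := by omega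
        rw [this]
        omega
    · -- use the block `x` itself
      have hqe : q = J - x.size := le_antisymm hqle hge
      rw [hqe] at hiq
      have hba : b < a := by omega
      obtain ⟨u, hWu, hbu, hsu, hcu⟩ := hvert x b hxJ hbm
      refine ⟨u, ⟨?_, Or.inl (by rw [hbu, hx])⟩, ?_⟩
      · intro huv
        rw [huv, ← ha] at hsu
        omega
      · rw [hcu]
        omega
  have hmain : t ≤ chiFF (gr k n) := by
    apply le_chiFF (gr k n) t c
    · intro v hv
      rw [hcW v (hcn v hv)]
      omega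
    · intro u v hu hv hadj
      have hWu := hcn u hu
      have hWv := hcn v hv
      have hsJu : (blk k u).size ≤ J := Nat.size_le.2 hWu.2
      have hsJv : (blk k v).size ≤ J := Nat.size_le.2 hWv.2
      rw [hcW u hWu, hcW v hWv]
      have hmu : ((u : ℕ) - k % 2) % m < m := Nat.mod_lt _ hm0
      have hmv : ((v : ℕ) - k % 2) % m < m := Nat.mod_lt _ hm0
      obtain ⟨hne, h | h | h⟩ := hadj
      · intro hcon
        apply hne
        rw [h] at hcon
        have h1 : ((u : ℕ) - k % 2) % m = ((v : ℕ) - k % 2) % m := by omega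
        have h2 : ((u : ℕ) - k % 2) / m = ((v : ℕ) - k % 2) / m := by
          rw [hm]
          exact h
        have h3 : ((u : ℕ) - k % 2) = ((v : ℕ) - k % 2) := by
          rw [← Nat.div_add_mod ((u : ℕ) - k % 2) m, ← Nat.div_add_mod ((v : ℕ) - k % 2) m,
            h1, h2]
        have h4 := hWu.1
        have h5 := hWv.1
        apply Fin.ext
        omega
      · have hs := size_par_lt h.1
        rw [← h.2] at hs
        have : m * (J - (blk k v).size + 1) ≤ m * (J - (blk k u).size) :=
          Nat.mul_le_mul_left _ (by omega)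
        rw [mul_add, mul_one] at this
        omega
      · have hs := size_par_lt h.1
        rw [← h.2] at hs
        have : m * (J - (blk k u).size + 1) ≤ m * (J - (blk k v).size) :=
          Nat.mul_le_mul_left _ (by omega)
        rw [mul_add, mul_one] at this
        omega
    · exact hwall
    · intro i hi1 hi2
      obtain ⟨u, hWu, -, -, hcu⟩ := hvert 0 (m - 1) (by positivity) (by omega)
      have hct : c u = t := by
        rw [hcu, ht]
        simp only [Nat.size_zero, Nat.sub_zero, mul_add, mul_one]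
        omega
      rcases Nat.lt_or_ge i t with hlt | hge
      · obtain ⟨w, -, hw⟩ := hwall u (by omega) i hi1 (by omega)
        exact ⟨w, hw⟩
      · exact ⟨u, by omega⟩
  rw [← hm, ← ht]
  exact hmain

/-! ### The result -/

/-- There is an absolute constant `c > 0` such that for every `k ≥ 2` and every `n ≥ k ^ 2` there
is a chordal graph `G` on `n` vertices with clique number `ω(G) = k` and First-Fit chromatic
number at least `c * ω(G) * log n`. -/
theorem result :
    ∃ c : ℝ, 0 < c ∧ ∀ k : ℕ, 2 ≤ k → ∀ n : ℕ, k ^ 2 ≤ n →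
      ∃ G : SimpleGraph (Fin n), IsChordal G ∧ G.cliqueNum = k ∧
        c * (G.cliqueNum : ℝ) * Real.log (n : ℝ) ≤ (chiFF G : ℝ) := by
  refine ⟨1 / 6, by norm_num, ?_⟩
  intro k hk n hn
  have hkn : k ≤ n := by nlinarith
  refine ⟨gr k n, gr_chordal k n, gr_cliqueNum hk hkn, ?_⟩
  rw [gr_cliqueNum hk hkn]
  obtain ⟨m, hm⟩ : ∃ m, m = k / 2 := ⟨_, rfl⟩
  have hm0 : 0 < m := by omega
  have hn4 : 4 ≤ n := by nlinarith
  have hmn : m ≤ n - 1 := by
    have h0 : 2 * k ≤ n := by nlinarith
    omega
  have hdiv : (n - 1) / m ≠ 0 := by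
    have : 0 < (n - 1) / m := Nat.div_pos hmn hm0
    omega
  obtain ⟨J, hJ⟩ : ∃ J, J = Nat.log 2 ((n - 1) / m) := ⟨_, rfl⟩
  have h1 : 2 ^ J ≤ (n - 1) / m := by
    rw [hJ]
    exact Nat.pow_log_le_self 2 hdiv
  have h2 : (n - 1) / m < 2 ^ (J + 1) := by
    rw [hJ]
    exact Nat.lt_pow_succ_log_self (by norm_num) _
  have h3 : m * 2 ^ J ≤ n - 1 := by
    calc m * 2 ^ J ≤ m * ((n - 1) / m) := Nat.mul_le_mul_left _ h1
      _ ≤ n - 1 := Nat.mul_div_le _ _
  have h4 : n - 1 < 2 ^ (J + 1) * m := by
    rwa [Nat.div_lt_iff_lt_mul hm0] at h2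
  have h5 : k % 2 + (k / 2) * 2 ^ J ≤ n := by
    rw [← hm]
    omega
  have h6 := gr_chiFF hk h5
  rw [← hm] at h6
  obtain ⟨P, hP⟩ : ∃ P, P = 2 ^ (J + 1) := ⟨_, rfl⟩
  rw [← hP] at h4
  have h7 : n ≤ P * m := by omega
  have h8 : 4 * (m * m) ≤ n := by
    have : 2 * m ≤ k := by omega
    nlinarith
  have h9 : n ≤ P ^ 2 := by
    have h10 : n * n ≤ (P * m) * (P * m) := Nat.mul_le_mul h7 h7
    have h11 : 4 * (n * n) ≤ n * (P * P) := by
      calc 4 * (n * n) ≤ 4 * ((P * m) * (P * m)) := Nat.mul_le_mul_left _ h10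
        _ = (4 * (m * m)) * (P * P) := by ring
        _ ≤ n * (P * P) := Nat.mul_le_mul_right _ h8
    have h12 : n * (4 * n) ≤ n * (P * P) := by
      calc n * (4 * n) = 4 * (n * n) := by ring
        _ ≤ n * (P * P) := h11
    have h13 : 4 * n ≤ P * P := Nat.le_of_mul_le_mul_left h12 (by omega)
    rw [pow_two]
    omega
  have hlog : Real.log (n : ℝ) ≤ 2 * ((J : ℝ) + 1) := by
    have hnpos : (0 : ℝ) < n := by
      have : 0 < n := by omega
      exact_mod_cast this
    have h10 : (n : ℝ) ≤ (2 : ℝ) ^ (2 * (J + 1)) := by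
      have : n ≤ 2 ^ (2 * (J + 1)) := by
        calc n ≤ P ^ 2 := h9
          _ = 2 ^ (2 * (J + 1)) := by rw [hP, ← pow_mul, mul_comm]
      exact_mod_cast this
    have h11 := Real.log_le_log hnpos h10
    rw [Real.log_pow] at h11
    have h12 : Real.log 2 ≤ 1 := by
      have := Real.log_two_lt_d9
      linarith
    have h13 : (0 : ℝ) ≤ ((2 * (J + 1) : ℕ) : ℝ) := by positivity
    have h14 : ((2 * (J + 1) : ℕ) : ℝ) * Real.log 2 ≤ ((2 * (J + 1) : ℕ) : ℝ) * 1 :=
      mul_le_mul_of_nonneg_left h12 h13
    push_cast at h11 h14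
    linarith
  have hk3 : (k : ℝ) ≤ 3 * (m : ℝ) := by
    have : k ≤ 3 * m := by omega
    exact_mod_cast this
  have h6' : (m : ℝ) * ((J : ℝ) + 1) ≤ (chiFF (gr k n) : ℝ) := by
    exact_mod_cast h6
  have hk0 : (0 : ℝ) ≤ (k : ℝ) := by positivity
  have hJ0 : (0 : ℝ) ≤ (J : ℝ) + 1 := by positivity
  calc (1 / 6 : ℝ) * (k : ℝ) * Real.log (n : ℝ)
      ≤ (1 / 6 : ℝ) * (k : ℝ) * (2 * ((J : ℝ) + 1)) := by
        apply mul_le_mul_of_nonneg_left hlog
        positivity
    _ = (k : ℝ) * ((J : ℝ) + 1) / 3 := by ring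
    _ ≤ (3 * (m : ℝ)) * ((J : ℝ) + 1) / 3 := by
        have := mul_le_mul_of_nonneg_right hk3 hJ0
        linarith
    _ = (m : ℝ) * ((J : ℝ) + 1) := by ring
    _ ≤ (chiFF (gr k n) : ℝ) := h6'

end Pool.Agent.Results.MP_4aa424_co.FirstFitChordal
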